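import Pool.Agent.H74.D0.CoreB

/-!
# T6, block `delta = 0` (MP_460e77_co, helper74): a set of `27` points killing products of four
functionals with at most `26` collisions has `0` or `18` collisions
-/

set_option autoImplicit false

namespace Pool.Agent.H74.D0

open Finset
open scoped Classical

variable {L X : Type*} [AddCommGroup L]

theorem core [Finite L] (S : Finset X) (y : X → L →+ ZMod 3) (hS : S.card = 27)
    (hk : ∀ Ls : List (L × ZMod 3), Ls.length < 5 →
      ∑ x ∈ S, (Ls.map fun l => y x l.1 - l.2).prod = 0)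
    (hc : Pool.Agent.H16.T6.col S y ≤ 26) :
    Pool.Agent.H16.T6.col S y = 0 ∨ Pool.Agent.H16.T6.col S y = 18 := by
  -- a point of multiplicity one
  obtain ⟨x0, hx0, hx0'⟩ : ∃ x0 ∈ S, ∀ x ∈ S, x ≠ x0 → y x ≠ y x0 := by
    by_contra hcon
    push Not at hcon
    choose! f hf using hcon
    have h : S.card ≤ Pool.Agent.H16.T6.col S y := by
      unfold Pool.Agent.H16.T6.col
      refine card_le_card_of_injOn (fun x => (x, f x)) ?_ ?_
      · intro x hx
        have h := hf x hx
        exact mem_coe.mpr (mem_filter.mpr ⟨mem_product.mpr ⟨hx, h.1⟩, h.2.1.symm, h.2.2.symm⟩)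
      · intro x _ x' _ h
        exact (Prod.mk.inj h).1
    omega
  -- isolation
  obtain ⟨τ, hτ⟩ := iso3 y S hS.le hx0
  have hiso : ∀ x ∈ S, pt y τ x = pt y τ x0 → x = x0 := by
    intro x hx h
    by_contra hne
    exact hx0' x hx hne (hτ x hx h)
  -- the counting function
  have hA : Aff fun z => ∑ x ∈ S.filter (fun x => pt y τ x = z), (1 : ZMod 3) := by
    refine aff_push (n := 5) rfl S y τ (fun _ => 1) ?_
    intro Ls hL
    rw [← hk Ls hL]
    exact sum_congr rfl fun x _ => one_mul _
  have hg : ∀ z, ∑ x ∈ S.filter (fun x => pt y τ x = z), (1 : ZMod 3) =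
      ((S.filter fun x => pt y τ x = z).card : ZMod 3) := by
    intro z
    rw [sum_const, nsmul_eq_mul, mul_one]
  rw [funext hg] at hA
  set g : (Fin 3 → ZMod 3) → ZMod 3 := fun z => ((S.filter fun x => pt y τ x = z).card : ZMod 3)
    with hgdef
  have hg1 : g (pt y τ x0) = 1 := by
    have e : (S.filter fun x => pt y τ x = pt y τ x0) = {x0} := by
      ext x
      rw [mem_filter, mem_singleton]
      constructor
      · rintro ⟨h1, h2⟩
        exact hiso x h1 h2
      · rintro rfl
        exact ⟨hx0, rfl⟩
    rw [hgdef]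
    simp only
    rw [e, card_singleton, Nat.cast_one]
  have hsumN : ∑ z, (S.filter fun x => pt y τ x = z).card = 27 := by
    rw [← hS]
    exact (card_eq_sum_card_fiberwise (f := pt y τ) (t := (univ : Finset (Fin 3 → ZMod 3)))
      (fun x _ => Finset.mem_coe.mpr (mem_univ _))).symm
  have hle : ∀ z, (g z).val ≤ (S.filter fun x => pt y τ x = z).card := by
    intro z
    rw [hgdef]
    simp only
    rw [ZMod.val_natCast]
    exact Nat.mod_le _ _
  have hsumg : ∑ z, (g z).val = 27 := by
    by_cases hne : ∃ u, g u ≠ g 0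
    · have h := hA.sum_comp hne fun c => c.val
      have e : (0 : ZMod 3).val + (1 : ZMod 3).val + (2 : ZMod 3).val = 3 := by decide
      rw [e] at h
      omega
    · push Not at hne
      have h1 : ∀ z, g z = 1 := fun z => by rw [hne z, ← hne (pt y τ x0), hg1]
      rw [sum_congr rfl fun z _ => by rw [h1 z], sum_const, card_univ, Fintype.card_fun, ZMod.card,
        Fintype.card_fin]
      rfl
  have hN : ∀ z, (S.filter fun x => pt y τ x = z).card = (g z).val := by
    intro z
    exact ((sum_eq_sum_iff_of_le fun z _ => hle z).mp (by rw [hsumg, hsumN]) z (mem_univ z)).symm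
  by_cases hne : ∃ u, g u ≠ g 0
  · -- a coordinate on which the linear part is not zero
    obtain ⟨u0, hu0⟩ := hne
    obtain ⟨k, hk0⟩ : ∃ k : Fin 3, hA.lin (Pi.single k 1) ≠ 0 := by
      by_contra hcon
      push Not at hcon
      apply hu0
      rw [hA.eq u0, lin_sum hA.lin u0, sum_eq_zero fun i _ => by rw [hcon i, mul_zero], add_zero]
    refine coreB S y hk (fun i : Fin 2 => τ (k.succAbove i)) (pull τ hA.lin) (g 0) ?_
    intro z e
    have : Fact (Nat.Prime 3) := ⟨by norm_num⟩
    have hGx : ∀ x, y x (pull τ hA.lin) + g 0 = g (pt y τ x) := by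
      intro x
      rw [pull_apply, hA.lin_apply, sub_add_cancel]
    let ζ : ZMod 3 → Fin 3 → ZMod 3 := fun c => k.insertNth c z
    have hζ : ∀ c, ζ c = ζ 0 + Pi.single k c := by
      intro c
      funext j
      rw [Pi.add_apply]
      rcases Fin.eq_self_or_eq_succAbove k j with h | ⟨i, h⟩
      · rw [h, Pi.single_eq_same]
        simp only [ζ, Fin.insertNth_apply_same, zero_add]
      · rw [h, Pi.single_eq_of_ne (Fin.succAbove_ne k i)]
        simp only [ζ, Fin.insertNth_apply_succAbove, add_zero]
    have hgζ : ∀ c, g (ζ c) = g (ζ 0) + c * hA.lin (Pi.single k 1) := by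
      intro c
      rw [hζ c]
      have h := hA.add (ζ 0) (Pi.single k c)
      rw [← lin_single, hA.lin_apply]
      linear_combination h
    have hx : ∀ x, pt y (fun i : Fin 2 => τ (k.succAbove i)) x = z →
        pt y τ x = ζ (y x (τ k)) := by
      intro x hx
      funext j
      rcases Fin.eq_self_or_eq_succAbove k j with h | ⟨i, h⟩
      · rw [h]
        simp only [ζ, Fin.insertNth_apply_same, pt]
      · rw [h]
        simp only [ζ, Fin.insertNth_apply_succAbove]
        exact congrFun hx i
    let m : ZMod 3 := (e - g (ζ 0)) * (hA.lin (Pi.single k 1))⁻¹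
    have hm : g (ζ m) = e := by
      rw [hgζ]
      simp only [m]
      rw [mul_assoc, inv_mul_cancel₀ hk0, mul_one]
      ring
    have hset : (S.filter fun x => pt y (fun i : Fin 2 => τ (k.succAbove i)) x = z ∧
        y x (pull τ hA.lin) + g 0 = e) = S.filter fun x => pt y τ x = ζ m := by
      ext x
      rw [mem_filter, mem_filter]
      constructor
      · rintro ⟨h1, h2, h3⟩
        refine ⟨h1, ?_⟩
        have h4 := hx x h2
        rw [hGx, h4, hgζ] at h3
        have h5 : y x (τ k) = m := by
          simp only [m]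
          rw [← h3, add_sub_cancel_left, mul_assoc, mul_inv_cancel₀ hk0, mul_one]
        rw [h4, h5]
      · rintro ⟨h1, h2⟩
        refine ⟨h1, ?_, ?_⟩
        · funext i
          have := congrFun h2 (k.succAbove i)
          simp only [ζ, Fin.insertNth_apply_succAbove] at this
          exact this
        · rw [hGx, h2, hm]
    rw [hset, hN, hm]
  · left
    push Not at hne
    have h1 : ∀ z, g z = 1 := fun z => by rw [hne z, ← hne (pt y τ x0), hg1]
    unfold Pool.Agent.H16.T6.col
    rw [card_eq_zero]
    apply filter_eq_empty_iff.mpr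
    rintro ⟨x, x'⟩ hxx ⟨hne', hyy⟩
    rw [mem_product] at hxx
    have h2 := hN (pt y τ x)
    rw [h1] at h2
    obtain ⟨a, ha⟩ := card_eq_one.mp h2
    have e1 : x ∈ S.filter (fun x' => pt y τ x' = pt y τ x) := mem_filter.mpr ⟨hxx.1, rfl⟩
    have e2 : x' ∈ S.filter (fun x' => pt y τ x' = pt y τ x) := by
      refine mem_filter.mpr ⟨hxx.2, ?_⟩
      funext i
      simp only at hyy
      simp only [pt, hyy]
    rw [ha, mem_singleton] at e1 e2
    exact hne' (e1.trans e2.symm)

end Pool.Agent.H74.D0
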