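import Pool.Agent.H74.D0.Push
import Pool.Agent.H16.T6.Defs

/-!
# T6, block `delta = 0` (MP_460e77_co, helper74): a set of fewer than `27` points killing products of
four functionals, without fibres of three points, has more than `26` collisions or is empty
-/

set_option autoImplicit false

namespace Pool.Agent.H74.D0

open Finset
open scoped Classical

variable {L X : Type*} [AddCommGroup L]

theorem sum_val_ge {g : (Fin 3 → ZMod 3) → ZMod 3} (hA : Aff g) (z0 : Fin 3 → ZMod 3)
    (h0 : g z0 ≠ 0) : 27 ≤ ∑ z, (g z).val := by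
  by_cases hne : ∃ u, g u ≠ g 0
  · have h := hA.sum_comp hne fun c => c.val
    have e : (0 : ZMod 3).val + (1 : ZMod 3).val + (2 : ZMod 3).val = 3 := by decide
    rw [e] at h
    omega
  · push Not at hne
    have h1 : ∀ z, 1 ≤ (g z).val := by
      intro z
      have h2 : g z ≠ 0 := by rw [hne z, ← hne z0]; exact h0
      have h3 : (g z).val ≠ 0 := fun h => h2 ((ZMod.val_eq_zero _).mp h)
      omega
    have h4 : ∑ _z : Fin 3 → ZMod 3, 1 ≤ ∑ z, (g z).val := sum_le_sum fun z _ => h1 z
    rw [sum_const, card_univ, Fintype.card_fun, ZMod.card, Fintype.card_fin] at h4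
    exact h4

/-- the classes of a small family are multiples of three -/
theorem dvd_class [Finite L] (T : Finset X) (y : X → L →+ ZMod 3) (hT : T.card < 27)
    (hk : ∀ Ls : List (L × ZMod 3), Ls.length < 5 →
      ∑ x ∈ T, (Ls.map fun l => y x l.1 - l.2).prod = 0) {x0 : X} (hx0 : x0 ∈ T) :
    3 ∣ (T.filter fun x => y x = y x0).card := by
  obtain ⟨τ, hτ⟩ := iso3 y T hT.le hx0
  have hA : Aff fun z => ∑ x ∈ T.filter (fun x => pt y τ x = z), (1 : ZMod 3) := by
    refine aff_push (n := 5) rfl T y τ (fun _ => 1) ?_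
    intro Ls hL
    rw [← hk Ls hL]
    exact sum_congr rfl fun x _ => one_mul _
  have hg : ∀ z, ∑ x ∈ T.filter (fun x => pt y τ x = z), (1 : ZMod 3) =
      ((T.filter fun x => pt y τ x = z).card : ZMod 3) := by
    intro z
    rw [sum_const, nsmul_eq_mul, mul_one]
  rw [funext hg] at hA
  have e : (T.filter fun x => pt y τ x = pt y τ x0) = T.filter fun x => y x = y x0 := by
    ext x
    rw [mem_filter, mem_filter]
    constructor
    · rintro ⟨h1, h2⟩
      exact ⟨h1, hτ x h1 h2⟩
    · rintro ⟨h1, h2⟩
      refine ⟨h1, ?_⟩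
      funext i
      simp only [pt, h2]
  by_contra hnd
  have h0 : ((T.filter fun x => pt y τ x = pt y τ x0).card : ZMod 3) ≠ 0 := by
    rw [e]
    intro h
    exact hnd ((ZMod.natCast_eq_zero_iff _ _).mp h)
  have h1 := sum_val_ge hA (pt y τ x0) h0
  have h2 : ∑ z, ((T.filter fun x => pt y τ x = z).card : ZMod 3).val ≤
      ∑ z, (T.filter fun x => pt y τ x = z).card := by
    refine sum_le_sum fun z _ => ?_
    rw [ZMod.val_natCast]
    exact Nat.mod_le _ _
  have h3 : ∑ z, (T.filter fun x => pt y τ x = z).card = T.card :=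
    (card_eq_sum_card_fiberwise (f := pt y τ) (t := (univ : Finset (Fin 3 → ZMod 3)))
      (fun x _ => Finset.mem_coe.mpr (mem_univ _))).symm
  omega

/-- the collisions of one class -/
theorem class_col (T : Finset X) (y : X → L →+ ZMod 3) (x0 : X) :
    (T.filter fun x => y x = y x0).card * (T.filter fun x => y x = y x0).card -
      (T.filter fun x => y x = y x0).card ≤ Pool.Agent.H16.T6.col T y := by
  rw [← offDiag_card]
  unfold Pool.Agent.H16.T6.col
  apply card_le_card
  rintro ⟨x, x'⟩ h
  rw [mem_offDiag, mem_filter, mem_filter] at h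
  rw [mem_filter, mem_product]
  exact ⟨⟨h.1.1, h.2.1.1⟩, h.2.2, h.1.2.trans h.2.1.2.symm⟩

/-- if all classes have at least three points there are two collisions for each point -/
theorem two_col (T : Finset X) (y : X → L →+ ZMod 3)
    (h : ∀ x0 ∈ T, 3 ≤ (T.filter fun x => y x = y x0).card) :
    2 * T.card ≤ Pool.Agent.H16.T6.col T y := by
  unfold Pool.Agent.H16.T6.col
  rw [card_eq_sum_card_fiberwise (f := fun p : X × X => p.1) (t := T) (by
    intro p hp
    exact (mem_product.mp (mem_filter.mp (mem_coe.mp hp)).1).1)]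
  rw [mul_comm, ← smul_eq_mul]
  apply card_nsmul_le_sum
  intro x hx
  have h1 : ((T.filter fun x' => y x' = y x).erase x).card ≤
      (((T ×ˢ T).filter fun z => z.1 ≠ z.2 ∧ y z.1 = y z.2).filter fun p => p.1 = x).card := by
    refine card_le_card_of_injOn (fun x' => (x, x')) ?_ ?_
    · intro x' hx'
      rw [mem_coe, mem_erase, mem_filter] at hx'
      rw [mem_coe, mem_filter, mem_filter, mem_product]
      exact ⟨⟨⟨hx, hx'.2.1⟩, hx'.1.symm, hx'.2.2.symm⟩, rfl⟩
    · intro a _ b _ hab
      exact (Prod.mk.inj hab).2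
  have hmem : x ∈ T.filter fun x' => y x' = y x := mem_filter.mpr ⟨hx, rfl⟩
  rw [card_erase_of_mem hmem] at h1
  have := h x hx
  omega

/-- at most nine points in triple classes are avoided by some functional -/
theorem avoid [Finite L] (T : Finset X) (v : X → L →+ ZMod 3) (hT : T.card ≤ 9)
    (h : ∀ x ∈ T, v x ≠ 0) (h3 : ∀ x ∈ T, 3 ≤ (T.filter fun x' => v x' = v x).card) :
    ∃ l : L, ∀ x ∈ T, v x l ≠ 0 := by
  by_contra hcon
  push Not at hcon
  have hz : ∀ l : L, 3 ≤ (T.filter fun x => v x l = 0).card := by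
    intro l
    obtain ⟨x, hx, hx0⟩ := hcon l
    refine (h3 x hx).trans (card_le_card ?_)
    intro x' hx'
    rw [mem_filter] at hx' ⊢
    exact ⟨hx'.1, by rw [hx'.2]; exact hx0⟩
  obtain ⟨_⟩ := nonempty_fintype L
  have hcount : ∀ x ∈ T, ((univ : Finset L).filter (fun l => v x l = 0)).card * 3 =
      Fintype.card L := by
    intro x hx
    apply count3
    by_contra hall
    push Not at hall
    exact h x hx (AddMonoidHom.ext hall)
  have hdc : ∑ l : L, (T.filter (fun x => v x l = 0)).card =
      ∑ x ∈ T, ((univ : Finset L).filter (fun l => v x l = 0)).card := by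
    simp only [card_filter]
    exact Finset.sum_comm
  have h2 : (∑ x ∈ T, ((univ : Finset L).filter (fun l => v x l = 0)).card) * 3 =
      T.card * Fintype.card L := by
    rw [Finset.sum_mul, Finset.sum_congr rfl hcount, Finset.sum_const, smul_eq_mul]
  have h0 : (T.filter fun x => v x (0 : L) = 0).card = T.card := by
    congr 1
    apply filter_true_of_mem
    intro x _
    exact map_zero _
  have h1 : (Fintype.card L - 1) * 3 + T.card ≤
      ∑ l : L, (T.filter (fun x => v x l = 0)).card := by
    rw [← add_sum_erase _ _ (mem_univ (0 : L)), h0, add_comm]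
    apply Nat.add_le_add_left
    have := card_nsmul_le_sum ((univ : Finset L).erase 0)
      (fun l => (T.filter (fun x => v x l = 0)).card) 3 (fun l _ => hz l)
    rwa [smul_eq_mul, card_erase_of_mem (mem_univ _), card_univ] at this
  have h4 : 0 < Fintype.card L := Fintype.card_pos
  have h5 : 3 ≤ T.card := (hz 0).trans h0.le
  rw [hdc] at h1
  generalize T.card = n at *
  generalize (∑ x ∈ T, ((univ : Finset L).filter (fun l => v x l = 0)).card) = a at *
  generalize Fintype.card L = m at *
  interval_cases n <;> omega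

theorem small_core [Finite L] (T : Finset X) (y : X → L →+ ZMod 3) (hT : T.card < 27)
    (hk : ∀ Ls : List (L × ZMod 3), Ls.length < 5 →
      ∑ x ∈ T, (Ls.map fun l => y x l.1 - l.2).prod = 0)
    (hno : ∀ (l : L) (c : ZMod 3), (T.filter fun x => y x l = c).card ≠ 3)
    (hc : Pool.Agent.H16.T6.col T y ≤ 26) : T.card = 0 := by
  rw [card_eq_zero]
  by_contra hne
  obtain ⟨x0, hx0⟩ := nonempty_iff_ne_empty.mpr hne
  have hm : ∀ x ∈ T, (T.filter fun x' => y x' = y x).card = 3 := by
    intro x hx
    obtain ⟨k, hk'⟩ := dvd_class T y hT hk hx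
    have h1 := class_col T y x
    have h2 : 0 < (T.filter fun x' => y x' = y x).card := card_pos.mpr ⟨x, mem_filter.mpr ⟨hx, rfl⟩⟩
    rw [hk'] at h1 h2 ⊢
    have hk1 : k < 2 := by
      by_contra hk2
      push Not at hk2
      have : 3 * k * (3 * k) - 3 * k = 3 * k * (3 * k - 1) := by
        rw [Nat.mul_sub, mul_one]
      rw [this] at h1
      have h3 : 6 * 5 ≤ 3 * k * (3 * k - 1) := Nat.mul_le_mul (by omega) (by omega)
      omega
    omega
  have h2 := two_col T y fun x hx => (hm x hx).ge
  have h3 : 3 ∣ T.card := by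
    have h := hk [] (by simp)
    simp only [List.map_nil, List.prod_nil, sum_const, nsmul_eq_mul, mul_one] at h
    exact (ZMod.natCast_eq_zero_iff _ _).mp h
  have h4 : T.card ≤ 12 := by omega
  have h5 : (T.filter fun x => y x = y x0).card + (T.filter fun x => ¬ y x = y x0).card = T.card :=
    card_filter_add_card_filter_not _
  have h6 := hm x0 hx0
  obtain ⟨l, hl⟩ := avoid (T.filter fun x => ¬ y x = y x0) (fun x => y x - y x0) (by omega)
    (fun x hx => sub_ne_zero.mpr (mem_filter.mp hx).2) (by
      intro x hx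
      rw [mem_filter] at hx
      refine (hm x hx.1).ge.trans (card_le_card ?_)
      intro x' hx'
      rw [mem_filter] at hx'
      rw [mem_filter, mem_filter]
      refine ⟨⟨hx'.1, ?_⟩, ?_⟩
      · rw [hx'.2]
        exact hx.2
      · rw [hx'.2])
  apply hno l (y x0 l)
  refine Eq.trans ?_ h6
  congr 1
  ext x
  rw [mem_filter, mem_filter]
  constructor
  · rintro ⟨h7, h8⟩
    refine ⟨h7, ?_⟩
    by_contra h9
    apply hl x (mem_filter.mpr ⟨h7, h9⟩)
    simp only [AddMonoidHom.sub_apply]
    rw [h8, sub_self]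
  · rintro ⟨h7, h8⟩
    exact ⟨h7, by rw [h8]⟩

end Pool.Agent.H74.D0
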