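import Pool.Agent.H16.RB.Deg

/-!
# T6, block `delta = 0` (MP_460e77_co, helper74): affine functions on `(ZMod 3) ^ s`

`g` is affine if `g (z + u) - g z = g (w + u) - g w` for all `z, w, u`.
-/

set_option autoImplicit false

namespace Pool.Agent.H74.D0

open Finset Pool.Agent.H16.RB

/-- affine functions -/
def Aff {s : ℕ} (g : (Fin s → ZMod 3) → ZMod 3) : Prop :=
  ∀ z w u, g (z + u) - g z = g (w + u) - g w

/-- If `g` kills all products of fewer than `n` affine functionals, `n + 1 = 2 s`, then it is
affine. -/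
theorem aff_of_kills {s n : ℕ} (hn : n + 1 = s * 2) (g : (Fin s → ZMod 3) → ZMod 3)
    (hg : ∀ L : List (((Fin s → ZMod 3) →+ ZMod 3) × ZMod 3), L.length < n →
      ∑ z, g z * (L.map fun l => l.1 z - l.2).prod = 0) : Aff g := by
  have : Fact (Nat.Prime 3) := ⟨by norm_num⟩
  intro z w u
  have h := deg_of_kills (p := 3) (s := s) (n := n) (b := 1) (by omega) g hg [z - w, u] rfl w
  simp only [Pool.Agent.H16.RB.diffs] at h
  have e1 : w + (z - w) = z := by abel
  have e2 : w + (z - w) + u = z + u := by abel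
  rw [e1] at h
  linear_combination h

/-- If `g` kills all products of fewer than `2 s` affine functionals, then it is constant. -/
theorem const_of_kills {s n : ℕ} (hn : n = s * 2) (g : (Fin s → ZMod 3) → ZMod 3)
    (hg : ∀ L : List (((Fin s → ZMod 3) →+ ZMod 3) × ZMod 3), L.length < n →
      ∑ z, g z * (L.map fun l => l.1 z - l.2).prod = 0) : ∀ z w, g z = g w := by
  have : Fact (Nat.Prime 3) := ⟨by norm_num⟩
  intro z w
  have h := deg_of_kills (p := 3) (s := s) (n := n) (b := 0) (by omega) g hg [z - w] rfl w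
  simp only [Pool.Agent.H16.RB.diffs] at h
  have e1 : w + (z - w) = z := by abel
  rw [e1] at h
  linear_combination h

variable {s : ℕ} {g : (Fin s → ZMod 3) → ZMod 3}

theorem Aff.add (h : Aff g) (u v : Fin s → ZMod 3) :
    g (u + v) - g 0 = (g u - g 0) + (g v - g 0) := by
  have h1 := h u 0 v
  rw [zero_add] at h1
  linear_combination h1

/-- the linear part -/
def Aff.lin (h : Aff g) : (Fin s → ZMod 3) →+ ZMod 3 :=
  AddMonoidHom.mk' (fun u => g u - g 0) (fun u v => h.add u v)

theorem Aff.lin_apply (h : Aff g) (u : Fin s → ZMod 3) : h.lin u = g u - g 0 := rfl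

theorem Aff.eq (h : Aff g) (u : Fin s → ZMod 3) : g u = g 0 + h.lin u := by
  rw [h.lin_apply]; ring

/-- a combination of affine functions -/
theorem Aff.comb {g' : (Fin s → ZMod 3) → ZMod 3} (h : Aff g) (h' : Aff g') (a b : ZMod 3) :
    Aff fun z => a * g z + b * g' z := by
  intro z w u
  have h1 := h z w u
  have h2 := h' z w u
  linear_combination a * h1 + b * h2

theorem aff_const (c : ZMod 3) : Aff fun _ : Fin s → ZMod 3 => c := by
  intro z w u
  ring

/-- an affine function whose values are `0` and `1` is constant -/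
theorem Aff.const (h : Aff g) (h01 : ∀ z, g z = 0 ∨ g z = 1) (z w : Fin s → ZMod 3) :
    g z = g w := by
  have h1 := h (w + (z - w)) w (z - w)
  have e1 : w + (z - w) = z := by abel
  rw [e1] at h1
  rcases h01 z with h2 | h2 <;> rcases h01 w with h3 | h3 <;>
    rcases h01 (z + (z - w)) with h4 | h4 <;> rw [h2, h3, h4] at h1 <;> rw [h2, h3] <;>
    first | rfl | (exfalso; revert h1; decide)

/-- the values of an affine function which is not constant are equally distributed -/
theorem Aff.sum_comp (h : Aff g) (hne : ∃ u, g u ≠ g 0) (f : ZMod 3 → ℕ) :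
    3 * ∑ z, f (g z) = 3 ^ s * (f 0 + f 1 + f 2) := by
  obtain ⟨u, hu⟩ := hne
  have hs : ∀ v : Fin s → ZMod 3, ∑ z, f (g (z + v)) = ∑ z, f (g z) := by
    intro v
    exact Equiv.sum_comp (Equiv.addRight v) fun z => f (g z)
  have h1 : ∀ z, g (z + u) = g z + (g u - g 0) := by
    intro z
    have := h z 0 u
    rw [zero_add] at this
    linear_combination this
  have h2 : ∀ z, g (z + (u + u)) = g z + 2 * (g u - g 0) := by
    intro z
    rw [← add_assoc, h1, h1]
    ring
  have key : ∀ a d : ZMod 3, d ≠ 0 → f a + f (a + d) + f (a + 2 * d) = f 0 + f 1 + f 2 := by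
    intro a d hd
    have ha : a = 0 ∨ a = 1 ∨ a = 2 := by revert a; decide
    have hd' : d = 1 ∨ d = 2 := by revert d; decide
    rcases ha with rfl | rfl | rfl <;> rcases hd' with rfl | rfl
    · have e : (0 : ZMod 3) + 1 = 1 := by decide
      have e' : (0 : ZMod 3) + 2 * 1 = 2 := by decide
      rw [e, e']
    · have e : (0 : ZMod 3) + 2 = 2 := by decide
      have e' : (0 : ZMod 3) + 2 * 2 = 1 := by decide
      rw [e, e']; ring
    · have e : (1 : ZMod 3) + 1 = 2 := by decide
      have e' : (1 : ZMod 3) + 2 * 1 = 0 := by decide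
      rw [e, e']; ring
    · have e : (1 : ZMod 3) + 2 = 0 := by decide
      have e' : (1 : ZMod 3) + 2 * 2 = 2 := by decide
      rw [e, e']; ring
    · have e : (2 : ZMod 3) + 1 = 0 := by decide
      have e' : (2 : ZMod 3) + 2 * 1 = 1 := by decide
      rw [e, e']; ring
    · have e : (2 : ZMod 3) + 2 = 1 := by decide
      have e' : (2 : ZMod 3) + 2 * 2 = 0 := by decide
      rw [e, e']; ring
  calc 3 * ∑ z, f (g z) = ∑ z, f (g z) + ∑ z, f (g (z + u)) + ∑ z, f (g (z + (u + u))) := by
        rw [hs, hs]; ring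
    _ = ∑ z, (f (g z) + f (g (z + u)) + f (g (z + (u + u)))) := by
        rw [sum_add_distrib, sum_add_distrib]
    _ = ∑ _z : Fin s → ZMod 3, (f 0 + f 1 + f 2) := by
        refine sum_congr rfl fun z _ => ?_
        rw [h1, h2]
        exact key _ _ (sub_ne_zero.mpr hu)
    _ = 3 ^ s * (f 0 + f 1 + f 2) := by
        rw [sum_const, card_univ, Fintype.card_fun, ZMod.card, Fintype.card_fin, smul_eq_mul]

end Pool.Agent.H74.D0
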