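import Pool.Agent.H74.D0.Push
import Pool.Agent.H16.T6.Defs

/-!
# T6, block `delta = 0` (MP_460e77_co, helper74): the double cells coincide all or none
-/

set_option autoImplicit false

namespace Pool.Agent.H74.D0

open Finset
open scoped Classical

variable {L X : Type*} [AddCommGroup L]

private theorem sum_z3 (f : ZMod 3 → ZMod 3) : ∑ e, f e = f 0 + f 1 + f 2 :=
  Fin.sum_univ_three f

/-- `S` kills products of four functionals and the fibres of `u` have one point with `G = 1` and two
points with `G = 2`, where `G x = y x t + c0`. Then there are `0` or `18` collisions. -/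
theorem coreB (S : Finset X) (y : X → L →+ ZMod 3)
    (hk : ∀ Ls : List (L × ZMod 3), Ls.length < 5 →
      ∑ x ∈ S, (Ls.map fun l => y x l.1 - l.2).prod = 0)
    (u : Fin 2 → L) (t : L) (c0 : ZMod 3)
    (hc : ∀ z e, (S.filter fun x => pt y u x = z ∧ y x t + c0 = e).card = e.val) :
    Pool.Agent.H16.T6.col S y = 0 ∨ Pool.Agent.H16.T6.col S y = 18 := by
  unfold Pool.Agent.H16.T6.col
  choose f1 hf1 using fun z => card_eq_one.mp (hc z 1)
  choose f2 f3 hne hf2 using fun z => card_eq_two.mp (hc z 2)
  have hf0 : ∀ z, (S.filter fun x => pt y u x = z ∧ y x t + c0 = 0) = ∅ := fun z =>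
    card_eq_zero.mp (hc z 0)
  have m1 : ∀ z, f1 z ∈ S ∧ pt y u (f1 z) = z ∧ y (f1 z) t + c0 = 1 := by
    intro z
    have h : f1 z ∈ (S.filter fun x => pt y u x = z ∧ y x t + c0 = 1) := by
      rw [hf1]; exact mem_singleton_self _
    exact mem_filter.mp h
  have m2 : ∀ z, f2 z ∈ S ∧ pt y u (f2 z) = z ∧ y (f2 z) t + c0 = 2 := by
    intro z
    have h : f2 z ∈ (S.filter fun x => pt y u x = z ∧ y x t + c0 = 2) := by
      rw [hf2]; exact mem_insert_self _ _
    exact mem_filter.mp h
  have m3 : ∀ z, f3 z ∈ S ∧ pt y u (f3 z) = z ∧ y (f3 z) t + c0 = 2 := by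
    intro z
    have h : f3 z ∈ (S.filter fun x => pt y u x = z ∧ y x t + c0 = 2) := by
      rw [hf2]; exact mem_insert_of_mem (mem_singleton_self _)
    exact mem_filter.mp h
  -- sums over a fibre of `u`
  have hfib : ∀ (w : X → ZMod 3) z,
      ∑ x ∈ S.filter (fun x => pt y u x = z), w x = w (f1 z) + (w (f2 z) + w (f3 z)) := by
    intro w z
    rw [← Finset.sum_fiberwise (S.filter fun x => pt y u x = z) (fun x => y x t + c0) w, sum_z3]
    rw [filter_filter, filter_filter, filter_filter, hf0, hf1, hf2, sum_empty, sum_singleton,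
      sum_pair (hne z), zero_add]
  -- the square of the difference of the two values of `l` does not depend on the fibre
  have hsq : ∀ (l : L) z z', (y (f2 z) l - y (f3 z) l) ^ 2 = (y (f2 z') l - y (f3 z') l) ^ 2 := by
    intro l
    have hA : Aff fun z => ∑ x ∈ S.filter (fun x => pt y u x = z),
        (2 - (y x t + c0)) * y x l := by
      refine aff_push (n := 3) rfl S y u (fun x => (2 - (y x t + c0)) * y x l) ?_
      intro Ls hL
      have h := hk ((t, 2 - c0) :: (l, 0) :: Ls) (by simp only [List.length_cons]; omega)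
      have e : ∀ x ∈ S, (2 - (y x t + c0)) * y x l * (Ls.map fun l => y x l.1 - l.2).prod =
          -(((t, 2 - c0) :: (l, 0) :: Ls).map fun l => y x l.1 - l.2).prod := by
        intro x _
        simp only [List.map_cons, List.prod_cons]
        ring
      rw [sum_congr rfl e, sum_neg_distrib, h, neg_zero]
    set φ : (Fin 2 → ZMod 3) → ZMod 3 := fun z => ∑ x ∈ S.filter (fun x => pt y u x = z),
        (2 - (y x t + c0)) * y x l with hφ
    have hφ1 : ∀ z, φ z = y (f1 z) l := by
      intro z
      rw [hφ]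
      simp only
      rw [hfib (fun x => (2 - (y x t + c0)) * y x l) z, (m1 z).2.2, (m2 z).2.2, (m3 z).2.2]
      ring
    let l' : L := l - pull u hA.lin
    have hl' : ∀ x, y x l' - φ 0 = y x l - φ (pt y u x) := by
      intro x
      have h1 : y x l' = y x l - hA.lin (pt y u x) := by
        rw [map_sub, pull_apply]
      rw [h1, hA.lin_apply]
      ring
    have hD1 : ∀ z, y (f1 z) l' - φ 0 = 0 := by
      intro z
      rw [hl', (m1 z).2.1, hφ1, sub_self]
    have hD2 : ∀ z, y (f2 z) l' - φ 0 = y (f2 z) l - φ z := by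
      intro z
      rw [hl', (m2 z).2.1]
    have hD3 : ∀ z, y (f3 z) l' - φ 0 = y (f3 z) l - φ z := by
      intro z
      rw [hl', (m3 z).2.1]
    have hs : ∀ z z', ((y (f2 z) l - φ z) + (y (f3 z) l - φ z)) =
        ((y (f2 z') l - φ z') + (y (f3 z') l - φ z')) := by
      intro z z'
      have h := const_push (n := 4) (s := 2) rfl S y u (fun x => y x l' - φ 0) (by
        intro Ls hL
        have h := hk ((l', φ 0) :: Ls) (by simp only [List.length_cons]; omega)
        rw [← h]
        refine sum_congr rfl fun x _ => ?_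
        simp only [List.map_cons, List.prod_cons]) z z'
      rw [hfib (fun x => y x l' - φ 0) z, hfib (fun x => y x l' - φ 0) z'] at h
      simp only [hD1, hD2, hD3, zero_add] at h
      exact h
    have hq : Aff fun z => (y (f2 z) l - φ z) ^ 2 + (y (f3 z) l - φ z) ^ 2 := by
      have h := aff_push (n := 3) (s := 2) rfl S y u (fun x => (y x l' - φ 0) ^ 2) (by
        intro Ls hL
        have h := hk ((l', φ 0) :: (l', φ 0) :: Ls) (by simp only [List.length_cons]; omega)
        rw [← h]
        refine sum_congr rfl fun x _ => ?_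
        simp only [List.map_cons, List.prod_cons]
        ring)
      have e : (fun z => ∑ x ∈ S.filter (fun x => pt y u x = z), (y x l' - φ 0) ^ 2) =
          fun z => (y (f2 z) l - φ z) ^ 2 + (y (f3 z) l - φ z) ^ 2 := by
        funext z
        rw [hfib (fun x => (y x l' - φ 0) ^ 2) z, hD1, hD2, hD3]
        ring
      rwa [e] at h
    have hd : Aff fun z => (y (f2 z) l - y (f3 z) l) ^ 2 := by
      have h := (hq.comb (aff_const
        (((y (f2 0) l - φ 0) + (y (f3 0) l - φ 0)) ^ 2)) (-1) (-1))
      have e : (fun z => -1 * ((y (f2 z) l - φ z) ^ 2 + (y (f3 z) l - φ z) ^ 2) +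
          -1 * ((y (f2 0) l - φ 0) + (y (f3 0) l - φ 0)) ^ 2) =
          fun z => (y (f2 z) l - y (f3 z) l) ^ 2 := by
        funext z
        rw [hs 0 z]
        have h3 : (3 : ZMod 3) = 0 := by decide
        linear_combination (-(y (f2 z) l - φ z) ^ 2 - (y (f3 z) l - φ z) ^ 2) * h3
      rwa [e] at h
    intro z z'
    refine hd.const ?_ z z'
    intro z
    generalize y (f2 z) l - y (f3 z) l = a
    revert a
    decide
  -- collisions
  have hcol : ∀ x ∈ S, ∀ x' ∈ S, x ≠ x' → y x = y x' →
      (x = f2 (pt y u x) ∧ x' = f3 (pt y u x)) ∨ (x = f3 (pt y u x) ∧ x' = f2 (pt y u x)) := by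
    intro x hx x' hx' hxx hyy
    have hp : pt y u x' = pt y u x := by
      funext i
      simp only [pt, hyy]
    have ht : y x' t = y x t := by rw [hyy]
    have hcases : y x t + c0 = 0 ∨ y x t + c0 = 1 ∨ y x t + c0 = 2 := by
      generalize y x t + c0 = a
      revert a
      decide
    rcases hcases with h | h | h
    · have : x ∈ (S.filter fun x' => pt y u x' = pt y u x ∧ y x' t + c0 = 0) :=
        mem_filter.mpr ⟨hx, rfl, h⟩
      rw [hf0] at this
      exact absurd this (notMem_empty _)
    · have h1 : x ∈ (S.filter fun x' => pt y u x' = pt y u x ∧ y x' t + c0 = 1) :=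
        mem_filter.mpr ⟨hx, rfl, h⟩
      have h2 : x' ∈ (S.filter fun x' => pt y u x' = pt y u x ∧ y x' t + c0 = 1) :=
        mem_filter.mpr ⟨hx', hp, by rw [ht]; exact h⟩
      rw [hf1, mem_singleton] at h1 h2
      exact absurd (h1.trans h2.symm) hxx
    · have h1 : x ∈ (S.filter fun x' => pt y u x' = pt y u x ∧ y x' t + c0 = 2) :=
        mem_filter.mpr ⟨hx, rfl, h⟩
      have h2 : x' ∈ (S.filter fun x' => pt y u x' = pt y u x ∧ y x' t + c0 = 2) :=
        mem_filter.mpr ⟨hx', hp, by rw [ht]; exact h⟩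
      rw [hf2, mem_insert, mem_singleton] at h1 h2
      rcases h1 with h1 | h1 <;> rcases h2 with h2 | h2
      · exact absurd (h1.trans h2.symm) hxx
      · exact Or.inl ⟨h1, h2⟩
      · exact Or.inr ⟨h1, h2⟩
      · exact absurd (h1.trans h2.symm) hxx
  by_cases hall : ∀ z, y (f2 z) = y (f3 z)
  · right
    rw [card_eq_sum_card_fiberwise (f := fun p : X × X => pt y u p.1)
      (t := (univ : Finset (Fin 2 → ZMod 3))) (fun x _ => Finset.mem_coe.mpr (mem_univ _))]
    have hcell : ∀ z, (((S ×ˢ S).filter fun z => z.1 ≠ z.2 ∧ y z.1 = y z.2).filter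
        fun p => pt y u p.1 = z).card = 2 := by
      intro z
      have e : (((S ×ˢ S).filter fun z => z.1 ≠ z.2 ∧ y z.1 = y z.2).filter
        fun p => pt y u p.1 = z) = {(f2 z, f3 z), (f3 z, f2 z)} := by
        ext ⟨x, x'⟩
        simp only [mem_filter, mem_product, mem_insert, mem_singleton, Prod.mk.injEq]
        constructor
        · rintro ⟨⟨⟨hx, hx'⟩, hxx, hyy⟩, rfl⟩
          exact hcol x hx x' hx' hxx hyy
        · rintro (⟨rfl, rfl⟩ | ⟨rfl, rfl⟩)
          · exact ⟨⟨⟨(m2 z).1, (m3 z).1⟩, hne z, hall z⟩, (m2 z).2.1⟩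
          · exact ⟨⟨⟨(m3 z).1, (m2 z).1⟩, (hne z).symm, (hall z).symm⟩, (m3 z).2.1⟩
      rw [e]
      refine card_pair ?_
      intro h
      exact hne z (Prod.mk.inj h).1
    rw [sum_congr rfl fun z _ => hcell z, sum_const, card_univ, Fintype.card_fun, ZMod.card,
      Fintype.card_fin, smul_eq_mul]
    norm_num
  · left
    rw [card_eq_zero]
    push Not at hall
    obtain ⟨z0, hz0⟩ := hall
    have hnone : ∀ z, y (f2 z) ≠ y (f3 z) := by
      intro z hz
      apply hz0
      apply AddMonoidHom.ext
      intro l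
      have h := hsq l z0 z
      rw [hz, sub_self, zero_pow two_ne_zero] at h
      have : Fact (Nat.Prime 3) := ⟨by norm_num⟩
      exact sub_eq_zero.mp (pow_eq_zero_iff two_ne_zero |>.mp h)
    apply filter_eq_empty_iff.mpr
    rintro ⟨x, x'⟩ hxx ⟨hne', hyy⟩
    rw [mem_product] at hxx
    rcases hcol x hxx.1 x' hxx.2 hne' hyy with ⟨h1, h2⟩ | ⟨h1, h2⟩
    · apply hnone (pt y u x)
      rw [← h1, ← h2]
      exact hyy
    · apply hnone (pt y u x)
      rw [← h1, ← h2]
      exact hyy.symm

end Pool.Agent.H74.D0
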