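import Pool.Agent.H74.D0.Aff

/-!
# T6, block `delta = 0` (MP_460e77_co, helper74): images in `(ZMod 3) ^ s`
-/

set_option autoImplicit false

namespace Pool.Agent.H74.D0

open Finset
open scoped Classical

variable {L X : Type*} [AddCommGroup L] {s : ℕ}

/-- the point `x` in the coordinates `τ` -/
def pt (y : X → L →+ ZMod 3) (τ : Fin s → L) (x : X) : Fin s → ZMod 3 := fun i => y x (τ i)

/-- the element of `L` given by a functional on the coordinate space -/
def pull (τ : Fin s → L) (l : (Fin s → ZMod 3) →+ ZMod 3) : L :=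
  ∑ i, (l (Pi.single i 1)).val • τ i

theorem lin_single (l : (Fin s → ZMod 3) →+ ZMod 3) (i : Fin s) (c : ZMod 3) :
    l (Pi.single i c) = c * l (Pi.single i 1) := by
  have e : (Pi.single i c : Fin s → ZMod 3) = c.val • (Pi.single i 1 : Fin s → ZMod 3) := by
    rw [← Pi.single_smul, nsmul_eq_mul, ZMod.natCast_zmod_val, mul_one]
  rw [e, map_nsmul, nsmul_eq_mul, ZMod.natCast_zmod_val]

theorem lin_sum (l : (Fin s → ZMod 3) →+ ZMod 3) (v : Fin s → ZMod 3) :
    l v = ∑ i, v i * l (Pi.single i 1) := by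
  conv_lhs => rw [← Finset.univ_sum_single v]
  rw [map_sum]
  exact sum_congr rfl fun i _ => lin_single l i (v i)

theorem pull_apply (y : X → L →+ ZMod 3) (τ : Fin s → L) (l : (Fin s → ZMod 3) →+ ZMod 3)
    (x : X) : y x (pull τ l) = l (pt y τ x) := by
  rw [lin_sum l, pull, map_sum]
  refine sum_congr rfl fun i _ => ?_
  rw [map_nsmul, nsmul_eq_mul, ZMod.natCast_zmod_val, mul_comm, pt]

theorem push_sum (S : Finset X) (q : X → Fin s → ZMod 3) (w : X → ZMod 3)
    (φ : (Fin s → ZMod 3) → ZMod 3) :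
    ∑ z, (∑ x ∈ S.filter (fun x => q x = z), w x) * φ z = ∑ x ∈ S, w x * φ (q x) := by
  rw [← Finset.sum_fiberwise S q (fun x => w x * φ (q x))]
  refine sum_congr rfl fun z _ => ?_
  rw [sum_mul]
  refine sum_congr rfl fun x hx => ?_
  rw [(mem_filter.mp hx).2]

theorem push_kills {n : ℕ} (S : Finset X) (y : X → L →+ ZMod 3) (τ : Fin s → L) (w : X → ZMod 3)
    (hw : ∀ Ls : List (L × ZMod 3), Ls.length < n →
      ∑ x ∈ S, w x * (Ls.map fun l => y x l.1 - l.2).prod = 0)
    (Ls : List (((Fin s → ZMod 3) →+ ZMod 3) × ZMod 3)) (hL : Ls.length < n) :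
    ∑ z, (∑ x ∈ S.filter (fun x => pt y τ x = z), w x) * (Ls.map fun l => l.1 z - l.2).prod
      = 0 := by
  rw [push_sum S (pt y τ) w fun z => (Ls.map fun l => l.1 z - l.2).prod]
  have h := hw (Ls.map fun l => (pull τ l.1, l.2)) (by rw [List.length_map]; exact hL)
  rw [← h]
  refine sum_congr rfl fun x _ => ?_
  rw [List.map_map]
  congr 2
  apply List.map_congr_left
  intro l _
  rw [Function.comp_apply, pull_apply]

theorem aff_push {n : ℕ} (hn : n + 1 = s * 2) (S : Finset X) (y : X → L →+ ZMod 3)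
    (τ : Fin s → L) (w : X → ZMod 3)
    (hw : ∀ Ls : List (L × ZMod 3), Ls.length < n →
      ∑ x ∈ S, w x * (Ls.map fun l => y x l.1 - l.2).prod = 0) :
    Aff fun z => ∑ x ∈ S.filter (fun x => pt y τ x = z), w x :=
  aff_of_kills hn _ (push_kills S y τ w hw)

theorem const_push {n : ℕ} (hn : n = s * 2) (S : Finset X) (y : X → L →+ ZMod 3)
    (τ : Fin s → L) (w : X → ZMod 3)
    (hw : ∀ Ls : List (L × ZMod 3), Ls.length < n →
      ∑ x ∈ S, w x * (Ls.map fun l => y x l.1 - l.2).prod = 0) (z z' : Fin s → ZMod 3) :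
    ∑ x ∈ S.filter (fun x => pt y τ x = z), w x = ∑ x ∈ S.filter (fun x => pt y τ x = z'), w x :=
  const_of_kills hn _ (push_kills S y τ w hw) z z'

theorem count3 {A : Type*} [AddCommGroup A] [Fintype A]
    (ev : A →+ ZMod 3) (h : ∃ a, ev a ≠ 0) :
    ((univ : Finset A).filter (fun a => ev a = 0)).card * 3 = Fintype.card A := by
  have : Fact (Nat.Prime 3) := ⟨by norm_num⟩
  have hsurj : Function.Surjective ev := by
    obtain ⟨a, ha⟩ := h
    intro z
    refine ⟨(z * (ev a)⁻¹).val • a, ?_⟩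
    rw [map_nsmul, nsmul_eq_mul, ZMod.natCast_zmod_val, mul_assoc, inv_mul_cancel₀ ha, mul_one]
  have h1 := AddSubgroup.card_mul_index ev.ker
  rw [AddSubgroup.index_ker, AddMonoidHom.range_eq_top.mpr hsurj, AddSubgroup.card_top,
    Nat.card_zmod] at h1
  have h2 : Nat.card ev.ker = ((univ : Finset A).filter (fun a => ev a = 0)).card := by
    apply Nat.subtype_card
    intro x
    simp only [mem_filter, mem_univ, true_and]
    exact (AddMonoidHom.mem_ker (f := ev) (x := x)).symm
  rw [h2, Nat.card_eq_fintype_card] at h1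
  exact h1

/-- one step of the isolation -/
theorem iso_step [Fintype L] (v : X → L →+ ZMod 3) (s : ℕ) (T : Finset X)
    (hT : T.card < 3 ^ (s + 1)) (h : ∀ x ∈ T, v x ≠ 0) :
    ∃ l : L, (T.filter fun x => v x l = 0).card < 3 ^ s := by
  by_contra hcon
  push Not at hcon
  have hcount : ∀ x ∈ T, ((univ : Finset L).filter (fun l => v x l = 0)).card * 3 =
      Fintype.card L := by
    intro x hx
    apply count3
    by_contra hall
    push Not at hall
    exact h x hx (AddMonoidHom.ext hall)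
  have hdc : ∑ l : L, (T.filter (fun x => v x l = 0)).card =
      ∑ x ∈ T, ((univ : Finset L).filter (fun l => v x l = 0)).card := by
    simp only [card_filter]
    exact Finset.sum_comm
  have h1 : Fintype.card L * 3 ^ s ≤ ∑ l : L, (T.filter (fun x => v x l = 0)).card := by
    have := Finset.card_nsmul_le_sum (univ : Finset L)
      (fun l => (T.filter (fun x => v x l = 0)).card) (3 ^ s) (fun l _ => hcon l)
    rwa [smul_eq_mul, Finset.card_univ] at this
  have h2 : (∑ x ∈ T, ((univ : Finset L).filter (fun l => v x l = 0)).card) * 3 =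
      T.card * Fintype.card L := by
    rw [Finset.sum_mul, Finset.sum_congr rfl hcount, Finset.sum_const, smul_eq_mul]
  have h3 : 0 < Fintype.card L := Fintype.card_pos
  have h4 : Fintype.card L * 3 ^ (s + 1) ≤ Fintype.card L * T.card := by
    calc Fintype.card L * 3 ^ (s + 1) = (Fintype.card L * 3 ^ s) * 3 := by ring
      _ ≤ (∑ l : L, (T.filter (fun x => v x l = 0)).card) * 3 := Nat.mul_le_mul_right _ h1
      _ = T.card * Fintype.card L := by rw [hdc, h2]
      _ = Fintype.card L * T.card := Nat.mul_comm _ _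
  have h5 := Nat.le_of_mul_le_mul_left h4 h3
  omega

/-- isolation -/
theorem iso [Finite L] (v : X → L →+ ZMod 3) (s : ℕ) (T : Finset X)
    (hT : T.card < 3 ^ s) (h : ∀ x ∈ T, v x ≠ 0) :
    ∃ τ : Fin s → L, ∀ x ∈ T, ∃ i, v x (τ i) ≠ 0 := by
  obtain ⟨_⟩ := nonempty_fintype L
  induction s generalizing T with
  | zero =>
    rw [pow_zero, Nat.lt_one_iff, Finset.card_eq_zero] at hT
    refine ⟨fun i => i.elim0, ?_⟩
    intro x hx
    rw [hT] at hx
    exact absurd hx (Finset.notMem_empty x)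
  | succ s ih =>
    obtain ⟨l, hl⟩ := iso_step v s T hT h
    obtain ⟨τ, hτ⟩ := ih (T.filter fun x => v x l = 0) hl (fun x hx => h x (mem_filter.mp hx).1)
    refine ⟨Fin.cons l τ, ?_⟩
    intro x hx
    by_cases hx' : v x l = 0
    · obtain ⟨i, hi⟩ := hτ x (mem_filter.mpr ⟨hx, hx'⟩)
      refine ⟨i.succ, ?_⟩
      rw [Fin.cons_succ]
      exact hi
    · refine ⟨0, ?_⟩
      rw [Fin.cons_zero]
      exact hx'

/-- isolation of the class of a point of a family of at most `27` points -/
theorem iso3 [Finite L] (y : X → L →+ ZMod 3) (T : Finset X) (hT : T.card ≤ 27) {x0 : X}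
    (hx0 : x0 ∈ T) : ∃ τ : Fin 3 → L, ∀ x ∈ T, pt y τ x = pt y τ x0 → y x = y x0 := by
  obtain ⟨τ, hτ⟩ := iso (fun x => y x - y x0) 3 (T.filter fun x => y x - y x0 ≠ 0)
    (by
      have h : (T.filter fun x => y x - y x0 ≠ 0).card ≤ (T.erase x0).card := by
        apply card_le_card
        intro x hx
        rw [mem_filter] at hx
        rw [mem_erase]
        refine ⟨?_, hx.1⟩
        rintro rfl
        exact hx.2 (sub_self _)
      rw [card_erase_of_mem hx0] at h
      have h' : 0 < T.card := card_pos.mpr ⟨x0, hx0⟩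
      have e : (3 : ℕ) ^ 3 = 27 := by norm_num
      omega)
    (by
      intro x hx
      rw [mem_filter] at hx
      exact hx.2)
  refine ⟨τ, fun x hx h => ?_⟩
  by_contra hne
  obtain ⟨i, hi⟩ := hτ x (mem_filter.mpr ⟨hx, sub_ne_zero.mpr hne⟩)
  apply hi
  have h' := congrFun h i
  simp only [pt] at h'
  simp only [AddMonoidHom.sub_apply]
  rw [h', sub_self]

end Pool.Agent.H74.D0
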